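import Pool.Agent.H70.EN.Targets
import Pool.Agent.H93.EB.Targets

/-!
# Row (MON): the mean of the largest correlation does not increase with the length
-/

set_option autoImplicit false

open Finset Pool.Agent.H6.N4D Pool.Agent.H93.EB Pool.Agent.H70.EN

namespace Pool.Agent.H89.ENM

theorem pf_MON (h1 : T_MNG) : Pool.Agent.H93.EB.T_MON := by
  obtain ⟨C, hC, h⟩ := h1
  refine ⟨C, hC, fun X N H lam hX hlam hN hNH => ?_⟩
  have h2 := h (fun x => x) X N H lam (convexOn_id (convex_Icc (0 : ℝ) 2))
    (fun x _ y _ hxy => hxy)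
    (fun x _ y _ => by
      have := abs_nonneg (x - y)
      linarith)
    (fun x hx => ⟨hx.1, by linarith [hx.2]⟩) hX hlam hN hNH
  exact h2

end Pool.Agent.H89.ENM
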